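import Pool.Agent.H8.Zs4

namespace Pool.Agent.Results.MP_0cd67c_ag.Preserver

open Polynomial

/-- `ℝ[t]_{m,0}`: degree at most `m`, coefficient of `t^(m-1)` equal to `0`. -/
noncomputable def V (m : ℕ) : Submodule ℝ ℝ[X] :=
  degreeLE ℝ m ⊓ LinearMap.ker (lcoeff ℝ (m - 1))

/-- `T` is diagonal. -/
def IsDiagonal (n d : ℕ) (T : V n →ₗ[ℝ] V d) : Prop :=
  ∃ γ : ℕ → ℝ, ∀ i ≤ n, i ≠ 1 → ∀ p : V n, (p : ℝ[X]) = X ^ (n - i) →
    (T p : ℝ[X]) = if i ≤ d then C (γ i) * X ^ (d - i) else 0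

theorem g0_mem (n : ℕ) (hn : 1 ≤ n) : (X - C 1) ^ (n - 1) * (X + C ((n : ℝ) - 1)) ∈ V n := by
  obtain ⟨m, rfl⟩ : ∃ m, n = m + 1 := ⟨n - 1, by omega⟩
  refine ⟨?_, ?_⟩
  · refine mem_degreeLE.2 (degree_le_of_natDegree_le (natDegree_mul_le.trans ?_))
    have h1 := natDegree_pow_le (p := (X - C 1 : ℝ[X])) (n := m)
    rw [natDegree_X_sub_C] at h1
    rw [natDegree_X_add_C, Nat.add_sub_cancel]
    omega
  · have := Pool.Agent.H8.Zs.g0_coeff m 1 (by omega)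
    simpa using this

/-- `g₀(t) = (t-1)^(n-1) (t+n-1)`. -/
noncomputable def g0 (n : ℕ) (hn : 1 ≤ n) : V n :=
  ⟨(X - C 1) ^ (n - 1) * (X + C ((n : ℝ) - 1)), g0_mem n hn⟩

theorem apply_eq (n d : ℕ) (hn : 1 ≤ n) (T : V n →ₗ[ℝ] V d) (γ : ℕ → ℝ)
    (hγ : ∀ i ≤ n, i ≠ 1 → ∀ p : V n, (p : ℝ[X]) = X ^ (n - i) →
      (T p : ℝ[X]) = if i ≤ d then C (γ i) * X ^ (d - i) else 0) (g : V n) :
    (T g : ℝ[X]) = Pool.Agent.H8.Zs.TT n d γ g := by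
  have hm : ∀ i, i ≤ n ∧ i ≠ 1 → (X : ℝ[X]) ^ (n - i) ∈ V n := by
    intro i hi
    refine ⟨mem_degreeLE.2 (degree_le_of_natDegree_le (by simp)), ?_⟩
    simp only [SetLike.mem_coe, LinearMap.mem_ker, lcoeff_apply, coeff_X_pow]
    rw [if_neg (by omega)]
  let e : ℕ → V n := fun i => if h : i ≤ n ∧ i ≠ 1 then ⟨X ^ (n - i), hm i h⟩ else 0
  have hg1 : (g : ℝ[X]).coeff (n - 1) = 0 := g.2.2
  have hgd : (g : ℝ[X]).natDegree ≤ n := natDegree_le_of_degree_le (mem_degreeLE.1 g.2.1)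
  have hg : g = ∑ i ∈ Finset.range (n + 1), (g : ℝ[X]).coeff (n - i) • e i := by
    apply Subtype.ext
    rw [Submodule.coe_sum]
    conv_lhs => rw [as_sum_range' (g : ℝ[X]) (n + 1) (by omega), ← Finset.sum_range_reflect]
    refine Finset.sum_congr rfl fun i hi => ?_
    have hi' : i ≤ n := by simpa [Nat.lt_succ_iff] using hi
    by_cases h : i = 1
    · subst h; simp [hg1]
    · simp only [e, dif_pos (And.intro hi' h), Submodule.coe_smul, Nat.add_sub_cancel]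
      rw [smul_X_eq_monomial]
  conv_lhs => rw [hg]
  rw [map_sum, Submodule.coe_sum, Pool.Agent.H8.Zs.TT]
  refine Finset.sum_congr rfl fun i hi => ?_
  have hi' : i ≤ n := by simpa [Nat.lt_succ_iff] using hi
  rw [map_smul, Submodule.coe_smul]
  by_cases h : i = 1
  · subst h; simp [hg1]
  · rw [hγ i hi' h (e i) (by simp only [e, dif_pos (And.intro hi' h)])]
    by_cases h' : i ≤ d
    · rw [if_pos h', if_pos ⟨h, h'⟩, C_mul_X_pow_eq_monomial, smul_monomial, smul_eq_mul, mul_comm]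
    · rw [if_neg h', if_neg (by tauto), smul_zero]

theorem result (n d : ℕ) (hn : 1 ≤ n) (hd : 5 ≤ d) (T : V n →ₗ[ℝ] V d) (hT : IsDiagonal n d T)
    (hreal : (T (g0 n hn) : ℝ[X]).Splits)
    (hsign : ∃ s ≤ (T (g0 n hn) : ℝ[X]).roots, s.card = d - 1 ∧
      ((∀ y ∈ s, 0 ≤ y) ∨ ∀ y ∈ s, y ≤ 0)) :
    ∀ g : V n, (g : ℝ[X]).Splits → (T g : ℝ[X]).Splits := by
  obtain ⟨γ, hγ⟩ := hT
  intro g hg
  rw [apply_eq n d hn T γ hγ g]
  exact Pool.Agent.H8.Zs.mainTT n d hn (by omega) γ _ (apply_eq n d hn T γ hγ _) hreal hsign g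
    (natDegree_le_of_degree_le (mem_degreeLE.1 g.2.1)) g.2.2 hg

end Pool.Agent.Results.MP_0cd67c_ag.Preserver
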